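import Pool.Agent.Lib.MP_fb3619_al.Base3

/-! FINK: the final contradiction. -/

universe u

namespace Pool.Agent.FourGp.H78

open Equiv

variable {G : Type u} [Group G] {H K : Subgroup G} {a b c : G}

theorem good (hRx : RotxS.{u}) (hSa : SahS.{u}) (h : Cfg H K a b c) (hJ : JC H K) :
    (tri h).Good where
  p := by
    have r1 := hRx G H K a b c h
    have r2 := hRx G H K b c a h.rot
    have r3 := hRx G H K c a b h.rot.rot
    exact ⟨fun x x' y => r1.1 x x' y, fun x x' z => r1.2.1 x x' z, fun y y' z => r2.1 y y' z,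
      fun y y' x => r2.2.1 y y' x, fun z z' x => r3.1 z z' x, fun z z' y => r3.2.1 z z' y⟩
  s := by
    have r1 := hSa G H K a b c h hJ
    have r2 := hSa G H K b c a h.rot hJ
    have r3 := hSa G H K c a b h.rot.rot hJ
    exact ⟨r1.1, r1.2.1, r2.1, r2.2.1, r3.1, r3.2.1⟩
  n := ⟨(part2_neg G H K b c a h.rot).2, (part2_neg G H K c a b h.rot.rot).2,
    (part2_neg G H K a b c h).2⟩

/-- Types of the points in `IsC`. -/
theorem IsC.sta {h : Cfg H K a b c} {z : Pt H} {γ : J h} {β : J h.rot.rot} (e : IsC h z γ β) :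
    (inc H K).st h.pa z := e.s

theorem not_st_ab (h : Cfg H K a b c) {z : Pt H} (e1 : (inc H K).st h.pa z)
    (e2 : (inc H K).st h.pb z) : False :=
  h.geo.perp_st _ _ h.pab (h.geo.st_trans _ _ _ e1 (h.geo.st_symm _ _ e2))

theorem not_st_ac (h : Cfg H K a b c) {z : Pt H} (e1 : (inc H K).st h.pa z)
    (e2 : (inc H K).st h.pc z) : False :=
  h.geo.perp_st _ _ h.pac (h.geo.st_trans _ _ _ e1 (h.geo.st_symm _ _ e2))

theorem not_st_bc (h : Cfg H K a b c) {z : Pt H} (e1 : (inc H K).st h.pb z)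
    (e2 : (inc H K).st h.pc z) : False :=
  h.geo.perp_st _ _ h.pbc (h.geo.st_trans _ _ _ e1 (h.geo.st_symm _ _ e2))

/-- Points of the same type with proportional coordinate vectors are equal. -/
theorem isV_inj (hCo : CoorS.{u}) (h : Cfg H K a b c) {R : Type u} [CommRing R]
    (D : RD (tri h) R) {x y : Pt H} {v w : Fin 3 → R} (hv : IsV h D x v) (hw : IsV h D y w)
    (hst : (inc H K).st x y) (e : Rˣ) (he : v = (e : R) • w) : x = y := by
  have trb : (inc H K).st h.pb x → (inc H K).st h.pb y := fun e1 => h.geo.st_trans _ _ _ e1 hst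
  have trc : (inc H K).st h.pc x → (inc H K).st h.pc y := fun e1 => h.geo.st_trans _ _ _ e1 hst
  have tra : (inc H K).st h.pa x → (inc H K).st h.pa y := fun e1 => h.geo.st_trans _ _ _ e1 hst
  rcases hv with ⟨γ, β, h1, rfl⟩ | ⟨α, γ, h1, rfl⟩ | ⟨β, α, h1, rfl⟩
  · rcases hw with ⟨γ', β', h2, rfl⟩ | ⟨α', γ', h2, rfl⟩ | ⟨β', α', h2, rfl⟩
    · have e0 := congrFun he 0
      have e1 := congrFun he 1
      have e2 := congrFun he 2
      simp only [Matrix.cons_val_zero, Pi.smul_apply, smul_eq_mul, mul_one] at e0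
      rw [← e0] at e1 e2
      simp at e1 e2
      have g1 : γ = γ' := D.jzi e1
      have g2 : β = β' := D.jyi e2
      subst g1; subst g2
      exact (hCo G H K a b c h).2.2.2.2.1 _ _ _ _ h1 h2
    · exact (not_st_ab h (tra h1.s) h2.s).elim
    · exact (not_st_ac h (tra h1.s) h2.s).elim
  · rcases hw with ⟨γ', β', h2, rfl⟩ | ⟨α', γ', h2, rfl⟩ | ⟨β', α', h2, rfl⟩
    · exact (not_st_ab h h2.s (trb h1.s)).elim
    · have e0 := congrFun he 0
      have e1 := congrFun he 1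
      have e2 := congrFun he 2
      simp only [Matrix.cons_val_one, Matrix.cons_val_zero, Pi.smul_apply, smul_eq_mul,
        mul_one] at e1
      rw [← e1] at e0 e2
      simp at e0 e2
      have g1 : γ = γ' := D.jzi e0
      have g2 : α = α' := D.jxi e2
      subst g1; subst g2
      exact (hCo G H K b c a h.rot).2.2.2.2.1 _ _ _ _ h1 h2
    · exact (not_st_bc h (trb h1.s) h2.s).elim
  · rcases hw with ⟨γ', β', h2, rfl⟩ | ⟨α', γ', h2, rfl⟩ | ⟨β', α', h2, rfl⟩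
    · exact (not_st_ac h h2.s (trc h1.s)).elim
    · exact (not_st_bc h h2.s (trc h1.s)).elim
    · have e0 := congrFun he 0
      have e1 := congrFun he 1
      have e2 := congrFun he 2
      simp only [Matrix.cons_val, Pi.smul_apply, smul_eq_mul, mul_one] at e2
      rw [← e2] at e0 e1
      simp at e0 e1
      have g1 : β = β' := D.jyi e0
      have g2 : α = α' := D.jxi e1
      subst g1; subst g2
      exact (hCo G H K c a b h.rot.rot).2.2.2.2.1 _ _ _ _ h1 h2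

/-- Uniqueness of the coordinate vector. -/
theorem isV_unique (hCo : CoorS.{u}) (h : Cfg H K a b c) {R : Type u} [CommRing R]
    (D : RD (tri h) R) {x : Pt H} {v w : Fin 3 → R} (hv : IsV h D x v) (hw : IsV h D x w) :
    v = w := by
  rcases hv with ⟨γ, β, h1, rfl⟩ | ⟨α, γ, h1, rfl⟩ | ⟨β, α, h1, rfl⟩
  · rcases hw with ⟨γ', β', h2, rfl⟩ | ⟨α', γ', h2, rfl⟩ | ⟨β', α', h2, rfl⟩
    · obtain ⟨e1, e2⟩ := (hCo G H K a b c h).2.2.2.1 _ _ _ _ _ h1 h2
      have g1 : γ = γ' := Subtype.ext e1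
      have g2 : β = β' := Subtype.ext e2
      rw [g1, g2]
    · exact (not_st_ab h h1.s h2.s).elim
    · exact (not_st_ac h h1.s h2.s).elim
  · rcases hw with ⟨γ', β', h2, rfl⟩ | ⟨α', γ', h2, rfl⟩ | ⟨β', α', h2, rfl⟩
    · exact (not_st_ab h h2.s h1.s).elim
    · obtain ⟨e1, e2⟩ := (hCo G H K b c a h.rot).2.2.2.1 _ _ _ _ _ h1 h2
      have g1 : α = α' := Subtype.ext e1
      have g2 : γ = γ' := Subtype.ext e2
      rw [g1, g2]
    · exact (not_st_bc h h1.s h2.s).elim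
  · rcases hw with ⟨γ', β', h2, rfl⟩ | ⟨α', γ', h2, rfl⟩ | ⟨β', α', h2, rfl⟩
    · exact (not_st_ac h h2.s h1.s).elim
    · exact (not_st_bc h h2.s h1.s).elim
    · obtain ⟨e1, e2⟩ := (hCo G H K c a b h.rot.rot).2.2.2.1 _ _ _ _ _ h1 h2
      have g1 : β = β' := Subtype.ext e1
      have g2 : α = α' := Subtype.ext e2
      rw [g1, g2]

theorem isV_pa (hCo : CoorS.{u}) (h : Cfg H K a b c) {R : Type u} [CommRing R]
    (D : RD (tri h) R) : IsV h D h.pa ![1, 0, 0] := by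
  have h1 := (hCo G H K a b c h).2.2.2.2.2.1 0
  rw [J.ap_zero] at h1
  refine Or.inl ⟨0, 0, h1, ?_⟩
  rw [map_zero, map_zero, neg_zero]

theorem isV_pb (hCo : CoorS.{u}) (h : Cfg H K a b c) {R : Type u} [CommRing R]
    (D : RD (tri h) R) : IsV h D h.pb ![0, 1, 0] := by
  have h1 := (hCo G H K b c a h.rot).2.2.2.2.2.1 0
  rw [J.ap_zero] at h1
  refine Or.inr (Or.inl ⟨0, 0, h1, ?_⟩)
  rw [map_zero, map_zero, neg_zero]

theorem isV_pc (hCo : CoorS.{u}) (h : Cfg H K a b c) {R : Type u} [CommRing R]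
    (D : RD (tri h) R) : IsV h D h.pc ![0, 0, 1] := by
  have h1 := (hCo G H K c a b h.rot.rot).2.2.2.2.2.1 0
  rw [J.ap_zero] at h1
  refine Or.inr (Or.inr ⟨0, 0, h1, ?_⟩)
  rw [map_zero, map_zero, neg_zero]

theorem actA (hRx : RotxS.{u}) (hAc : ActaS.{u}) (h : Cfg H K a b c) (hG : (tri h).Good)
    {R : Type u} [CommRing R] (D : RD (tri h) R) (α : J h.rot) (hα : α ∈ (tri h).MX) :
    ∃ C S : R, C * C + S * S = 1 ∧ ∀ (x : Pt H) (v v' : Fin 3 → R), IsV h D x v →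
      IsV h D (cjJ h.rot α x) v' → ∃ e : Rˣ, (rotA C S).mulVec v = (e : R) • v' := by
  obtain ⟨w, hw, hw1⟩ := D.ux ⟨α, hα⟩ ((hRx G H K a b c h).2.2.1 α)
  refine ⟨(1 - D.jx ⟨α, hα⟩ * D.jx ⟨α, hα⟩) * w, 2 * D.jx ⟨α, hα⟩ * w, ?_, ?_⟩
  · have : ((1 - D.jx ⟨α, hα⟩ * D.jx ⟨α, hα⟩) * w) * ((1 - D.jx ⟨α, hα⟩ * D.jx ⟨α, hα⟩) * w) +
        (2 * D.jx ⟨α, hα⟩ * w) * (2 * D.jx ⟨α, hα⟩ * w) =
        (w * (1 + D.jx ⟨α, hα⟩ * D.jx ⟨α, hα⟩)) * (w * (1 + D.jx ⟨α, hα⟩ * D.jx ⟨α, hα⟩)) := by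
      ring
    rw [this, hw1, mul_one]
  · intro x v v' hv hv'
    exact hAc G H K a b c h hG R D ⟨α, hα⟩ w hw hw1 x v v' hv hv'

theorem rotA_mulVec {R : Type u} [CommRing R] (C S : R) (v : Fin 3 → R) :
    (rotA C S).mulVec v = ![v 0, C * v 1 + S * v 2, -S * v 1 + C * v 2] := by
  ext i
  fin_cases i <;> simp [rotA, Matrix.mulVec, dotProduct, Fin.sum_univ_three]

theorem rotB_mulVec {R : Type u} [CommRing R] (C S : R) (v : Fin 3 → R) :
    (rotB C S).mulVec v = ![C * v 0 - S * v 2, v 1, S * v 0 + C * v 2] := by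
  ext i
  fin_cases i <;> simp [rotB, Matrix.mulVec, dotProduct, Fin.sum_univ_three, sub_eq_add_neg]

theorem rotC_mulVec {R : Type u} [CommRing R] (C S : R) (v : Fin 3 → R) :
    (rotC C S).mulVec v = ![C * v 0 + S * v 1, -S * v 0 + C * v 1, v 2] := by
  ext i
  fin_cases i <;> simp [rotC, Matrix.mulVec, dotProduct, Fin.sum_univ_three]

theorem actB (hRx : RotxS.{u}) (hAc : ActaS.{u}) (h : Cfg H K a b c) (hG : (tri h).Good)
    {R : Type u} [CommRing R] (D : RD (tri h) R) (β : J h.rot.rot) (hβ : β ∈ (tri h).MY) :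
    ∃ C S : R, C * C + S * S = 1 ∧ ∀ (x : Pt H) (v v' : Fin 3 → R), IsV h D x v →
      IsV h D (cjJ h.rot.rot β x) v' → ∃ e : Rˣ, (rotB C S).mulVec v = (e : R) • v' := by
  obtain ⟨C, S, h1, h2⟩ := actA hRx hAc h.rot hG.rot (D.rot : RD (tri h.rot) R) β hβ
  refine ⟨C, S, h1, fun x v v' hv hv' => ?_⟩
  obtain ⟨e, he⟩ := h2 x _ _ (isV_rot h D x v hv) (isV_rot h D _ v' hv')
  refine ⟨e, ?_⟩
  rw [rotA_mulVec] at he
  rw [rotB_mulVec]
  have e0 := congrFun he 0
  have e1 := congrFun he 1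
  have e2 := congrFun he 2
  simp at e0 e1 e2
  ext i
  fin_cases i
  · simp; linear_combination e2
  · simp; linear_combination e0
  · simp; linear_combination e1

theorem actC (hRx : RotxS.{u}) (hAc : ActaS.{u}) (h : Cfg H K a b c) (hG : (tri h).Good)
    {R : Type u} [CommRing R] (D : RD (tri h) R) (γ : J h) (hγ : γ ∈ (tri h).MZ) :
    ∃ C S : R, C * C + S * S = 1 ∧ ∀ (x : Pt H) (v v' : Fin 3 → R), IsV h D x v →
      IsV h D (cjJ h γ x) v' → ∃ e : Rˣ, (rotC C S).mulVec v = (e : R) • v' := by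
  obtain ⟨C, S, h1, h2⟩ := actB hRx hAc h.rot hG.rot (D.rot : RD (tri h.rot) R) γ hγ
  refine ⟨C, S, h1, fun x v v' hv hv' => ?_⟩
  obtain ⟨e, he⟩ := h2 x _ _ (isV_rot h D x v hv) (isV_rot h D _ v' hv')
  refine ⟨e, ?_⟩
  rw [rotB_mulVec] at he
  rw [rotC_mulVec]
  have e0 := congrFun he 0
  have e1 := congrFun he 1
  have e2 := congrFun he 2
  simp at e0 e1 e2
  ext i
  fin_cases i
  · simp; linear_combination e2
  · simp; linear_combination e0
  · simp; linear_combination e1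

/-- Finite index of a finite subgroup. -/
theorem infinite_of_index {L K : Subgroup G} (hL : Finite L) (hi : L.relIndex K ≠ 0)
    (hinf : Infinite K) : False := by
  have h1 : Finite (L.subgroupOf K) := by
    refine Finite.of_injective (β := L) (fun x => ⟨x.1.1, x.2⟩) ?_
    intro x y e
    apply Subtype.ext
    apply Subtype.ext
    have e' : (⟨x.1.1, x.2⟩ : L).1 = (⟨y.1.1, y.2⟩ : L).1 := congrArg Subtype.val e
    exact e'
  have h2 := Subgroup.card_mul_index (L.subgroupOf K)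
  have h3 : Nat.card K = 0 := Nat.card_eq_zero_of_infinite
  rw [h3] at h2
  rcases Nat.mul_eq_zero.1 h2 with h4 | h4
  · exact absurd h4 Nat.card_pos.ne'
  · exact hi h4

theorem fink (hCo : CoorS.{u}) (hRx : RotxS.{u}) (hFa : FactS.{u}) (hCh : ChainS.{u})
    (hSa : SahS.{u}) (hVx : VecxS.{u}) (hAc : ActaS.{u}) : FinkS.{u} := by
  intro G _ H K a b c h hJ
  have hG := good hRx hSa h hJ
  obtain ⟨R, _, ⟨D⟩⟩ := part1_tring _ _ _ (tri h) hG
  obtain ⟨c1, c2, le1, le2, le3, le4, fg2, ix2, ix3, -⟩ := hCh G H K a b c h hJ.fg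
  have hK2H2 : K2 H K a b c ≤ H2 H K a b c := c2.le
  have hH2H : H2 H K a b c ≤ H := le2.trans le1
  have hK2K : K2 H K a b c ≤ K := le3.trans (K0_le H K)
  -- the points
  let I : Type u := {x : Pt H // x.1 ∈ H2 H K a b c}
  have hmem : ∀ (g : K2 H K a b c) (x : I),
      (cj H ⟨g.1, hH2H (hK2H2 g.2)⟩ x.1).1 ∈ H2 H K a b c := by
    intro g x
    rw [cj_val]
    exact Subgroup.mul_mem _ (Subgroup.mul_mem _ (Subgroup.inv_mem _ (hK2H2 g.2)) x.2)
      (hK2H2 g.2)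
  let act : I → (K2 H K a b c) → I := fun x g => ⟨cj H ⟨g.1, hH2H (hK2H2 g.2)⟩ x.1, hmem g x⟩
  have hV : ∀ x : I, ∃ v, IsV h D x.1 v := fun x => hVx G H K a b c h hJ R D x.1 x.2
  choose vec hvec using hV
  let e : Fin 3 → I := ![⟨h.pa, c2.ha⟩, ⟨h.pb, c2.hb⟩, ⟨h.pc, c2.hc⟩]
  have hfin : Finite (K2 H K a b c) := by
    -- generators
    obtain ⟨F0, hF0⟩ := fg2
    have hfact : ∀ k : K2 H K a b c, ∃ β α γ : K2 H K a b c, β.1 * b = b * β.1 ∧
        α.1 * a = a * α.1 ∧ γ.1 * c = c * γ.1 ∧ k = β * α * γ := by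
      intro k
      obtain ⟨β, hβ, α, hα, γ, hγ, h1, h2, h3, h4⟩ := hFa G _ _ a b c c2 k.1 k.2
      exact ⟨⟨β, hβ⟩, ⟨α, hα⟩, ⟨γ, hγ⟩, h1, h2, h3, Subtype.ext h4⟩
    choose fb fa fc hfb hfa hfc hfk using hfact
    have hF0' : ∀ x ∈ F0, x ∈ K2 H K a b c := by
      intro x hx
      rw [← hF0]
      exact Subgroup.subset_closure hx
    let F : Set (K2 H K a b c) := {g | ∃ x : G, ∃ hx : x ∈ F0,
      g = fb ⟨x, hF0' x hx⟩ ∨ g = fa ⟨x, hF0' x hx⟩ ∨ g = fc ⟨x, hF0' x hx⟩}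
    have hFf : F.Finite := by
      have : F ⊆ ⋃ x : F0, {fb ⟨x.1, hF0' x.1 x.2⟩, fa ⟨x.1, hF0' x.1 x.2⟩,
          fc ⟨x.1, hF0' x.1 x.2⟩} := by
        rintro g ⟨x, hx, hg⟩
        refine Set.mem_iUnion.2 ⟨⟨x, hx⟩, ?_⟩
        simpa using hg
      refine Set.Finite.subset (Set.finite_iUnion fun x => ?_) this
      exact Set.toFinite _
    have hFc : Subgroup.closure F = ⊤ := by
      rw [eq_top_iff]
      rintro ⟨k, hk⟩ -
      have h1 : k ∈ Subgroup.closure (F0 : Set G) := by rw [hF0]; exact hk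
      revert hk
      refine Subgroup.closure_induction (p := fun k _ => ∀ hk : k ∈ K2 H K a b c,
        (⟨k, hk⟩ : K2 H K a b c) ∈ Subgroup.closure F) ?_ ?_ ?_ ?_ h1
      · intro x hx hk
        rw [hfk ⟨x, hk⟩]
        refine Subgroup.mul_mem _ (Subgroup.mul_mem _ ?_ ?_) ?_
        · exact Subgroup.subset_closure ⟨x, hx, Or.inl rfl⟩
        · exact Subgroup.subset_closure ⟨x, hx, Or.inr (Or.inl rfl)⟩
        · exact Subgroup.subset_closure ⟨x, hx, Or.inr (Or.inr rfl)⟩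
      · intro hk
        exact Subgroup.one_mem _
      · intro x y hx hy ihx ihy hk
        have hx' : x ∈ K2 H K a b c := by rw [← hF0]; exact hx
        have hy' : y ∈ K2 H K a b c := by rw [← hF0]; exact hy
        exact Subgroup.mul_mem _ (ihx hx') (ihy hy')
      · intro x hx ih hk
        have hx' : x ∈ K2 H K a b c := by rw [← hF0]; exact hx
        exact Subgroup.inv_mem _ (ih hx')
    refine part1_rep R D.nt (K2 H K a b c) I act ?_ ?_ vec e ?_ ?_ ?_ ?_ F hFf hFc ?_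
    · intro x
      apply Subtype.ext
      apply Subtype.ext
      change (1 : G)⁻¹ * x.1.1 * 1 = x.1.1
      group
    · intro x g g'
      apply Subtype.ext
      apply Subtype.ext
      change (g.1 * g'.1)⁻¹ * x.1.1 * (g.1 * g'.1) = g'.1⁻¹ * (g.1⁻¹ * x.1.1 * g.1) * g'.1
      group
    · intro i
      have i0 : vec (e 0) = Pi.single 0 1 := by
        rw [isV_unique hCo h D (hvec (e 0)) (isV_pa hCo h D)]
        ext j; fin_cases j <;> rfl
      have i1 : vec (e 1) = Pi.single 1 1 := by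
        rw [isV_unique hCo h D (hvec (e 1)) (isV_pb hCo h D)]
        ext j; fin_cases j <;> rfl
      have i2 : vec (e 2) = Pi.single 2 1 := by
        rw [isV_unique hCo h D (hvec (e 2)) (isV_pc hCo h D)]
        ext j; fin_cases j <;> rfl
      fin_cases i
      · exact i0
      · exact i1
      · exact i2
    · intro x g v hxv
      apply Subtype.ext
      have hst : (inc H K).st x.1 (act x g).1 :=
        (part1_cjc G H K a b c h ⟨g.1, hH2H (hK2H2 g.2)⟩).tp x.1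
      exact (isV_inj hCo h D (hvec x) (hvec (act x g)) hst v hxv).symm
    · intro g hg
      apply Subtype.ext
      have e0 : g.1⁻¹ * a * g.1 = a := congrArg (fun x : I => x.1.1) (hg 0)
      have e1 : g.1⁻¹ * b * g.1 = b := congrArg (fun x : I => x.1.1) (hg 1)
      refine h.cent g.1 (hK2K g.2) ?_ ?_
      · calc a * g.1 = g.1 * (g.1⁻¹ * a * g.1) := by group
          _ = g.1 * a := by rw [e0]
      · calc b * g.1 = g.1 * (g.1⁻¹ * b * g.1) := by group
          _ = g.1 * b := by rw [e1]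
    · intro g
      obtain ⟨n, hn⟩ := h.odd g.1 (hK2K g.2)
      exact ⟨2 * n + 1, by omega, Subtype.ext (by simpa using hn)⟩
    · rintro g ⟨x, hx, hg⟩
      rcases hg with hg | hg | hg
      · -- type b
        have hgb : g.1 * b = b * g.1 := by rw [hg]; exact hfb _
        have hg0 : g.1 ∈ K0 H K := le3 g.2
        have hM : (⟨g.1, hg0, hgb⟩ : J h.rot.rot) ∈ (tri h).MY :=
          (hSa G H K b c a h.rot hJ).2.2 ⟨g.1, hg0, hgb⟩ (by rw [K2_rot]; exact g.2)
        obtain ⟨C, S, h1, h2⟩ := actB hRx hAc h hG D ⟨g.1, hg0, hgb⟩ hM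
        refine ⟨C, S, h1, Or.inr (Or.inl fun y => ?_)⟩
        exact h2 y.1 _ _ (hvec y) (hvec (act y g))
      · have hgb : g.1 * a = a * g.1 := by rw [hg]; exact hfa _
        have hg0 : g.1 ∈ K0 H K := le3 g.2
        have hM : (⟨g.1, hg0, hgb⟩ : J h.rot) ∈ (tri h).MX :=
          (hSa G H K a b c h hJ).2.2 ⟨g.1, hg0, hgb⟩ g.2
        obtain ⟨C, S, h1, h2⟩ := actA hRx hAc h hG D ⟨g.1, hg0, hgb⟩ hM
        refine ⟨C, S, h1, Or.inl fun y => ?_⟩
        exact h2 y.1 _ _ (hvec y) (hvec (act y g))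
      · have hgb : g.1 * c = c * g.1 := by rw [hg]; exact hfc _
        have hg0 : g.1 ∈ K0 H K := le3 g.2
        have hM : (⟨g.1, hg0, hgb⟩ : J h) ∈ (tri h).MZ :=
          (hSa G H K c a b h.rot.rot hJ).2.2 ⟨g.1, hg0, hgb⟩ (by rw [K2_rot, K2_rot]; exact g.2)
        obtain ⟨C, S, h1, h2⟩ := actC hRx hAc h hG D ⟨g.1, hg0, hgb⟩ hM
        refine ⟨C, S, h1, Or.inr (Or.inr fun y => ?_)⟩
        exact h2 y.1 _ _ (hvec y) (hvec (act y g))
  exact infinite_of_index hfin ix2 hJ.inf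

end Pool.Agent.FourGp.H78
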