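import Pool.Agent.Lib.MP_fb3619_al.Iface

/-! QUOF: quotients of groups with a fixed-point-free action of a four-group. -/

universe u

namespace Pool.Agent.FourGp.H78

variable {K : Type u} [Group K] {σ τ : K ≃* K}

/-- Correction by a square root. -/
theorem sqrt_fix (h : FixP K σ τ) (φ : K ≃* K) (hφφ : ∀ k, φ (φ k) = k) (k : K) : ∃ j : ℕ, φ (k * (k⁻¹ * φ k) ^ j) = k * (k⁻¹ * φ k) ^ j := by
  obtain ⟨n, hn⟩ := h.odd (k⁻¹ * φ k)
  refine ⟨n + 1, ?_⟩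
  set d := k⁻¹ * φ k with hd
  have h1 : φ d = d⁻¹ := by
    rw [hd, map_mul, map_inv, hφφ, mul_inv_rev, inv_inv]
  have h2 : d ^ (n + 1) * d ^ (n + 1) = d := by
    rw [← pow_add, show n + 1 + (n + 1) = (2 * n + 1) + 1 by ring, pow_succ, hn, one_mul]
  have h3 : φ k = k * d := by rw [hd]; group
  rw [map_mul, map_pow, h1, h3, inv_pow, mul_assoc]
  congr 1
  rw [mul_inv_eq_iff_eq_mul, h2]

theorem fix_mem (h : FixP K σ τ) (N : Subgroup K) (k : K) (h1 : k⁻¹ * σ k ∈ N)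
    (h2 : k⁻¹ * τ k ∈ N)
    (hτ : ∀ n ∈ N, τ n ∈ N) : k ∈ N := by
  obtain ⟨j, hj⟩ := sqrt_fix h σ h.ss k
  set d := (k⁻¹ * σ k) ^ j with hd
  have hdN : d ∈ N := N.pow_mem h1 j
  set l := k * d with hl
  have h3 : l⁻¹ * τ l ∈ N := by
    have e : l⁻¹ * τ l = d⁻¹ * (k⁻¹ * τ k) * τ d := by
      rw [hl, map_mul]; group
    rw [e]
    exact N.mul_mem (N.mul_mem (N.inv_mem hdN) h2) (hτ d hdN)
  obtain ⟨i, hi⟩ := sqrt_fix h τ h.tt l
  have h4 : σ (l * (l⁻¹ * τ l) ^ i) = l * (l⁻¹ * τ l) ^ i := by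
    have e : σ (l⁻¹ * τ l) = l⁻¹ * τ l := by
      rw [map_mul σ l⁻¹, map_inv, h.st, hj]
    rw [map_mul σ l, map_pow, hj, e]
  have h5 := h.fix _ h4 hi
  have h6 : l ∈ N := by
    have : l = ((l⁻¹ * τ l) ^ i)⁻¹ := eq_inv_of_mul_eq_one_left h5
    rw [this]
    exact N.inv_mem (N.pow_mem h3 i)
  have h7 : k = l * d⁻¹ := by rw [hl]; group
  rw [h7]
  exact N.mul_mem h6 (N.inv_mem hdN)

theorem map_eq (φ : K ≃* K) (hφφ : ∀ k, φ (φ k) = k) (N : Subgroup K) (hφ : ∀ n ∈ N, φ n ∈ N) :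
    N.map (φ : K →* K) = N := by
  ext x
  constructor
  · rintro ⟨n, hn, rfl⟩
    exact hφ n hn
  · intro hx
    exact ⟨φ x, hφ x hx, hφφ x⟩

theorem quof : QuofS.{u} := by
  intro K _ σ τ h N _ hσ hτ
  let σ' := QuotientGroup.congr N N σ (map_eq σ h.ss N hσ)
  let τ' := QuotientGroup.congr N N τ (map_eq τ h.tt N hτ)
  have e1 : ∀ k : K, σ' (k : K ⧸ N) = ((σ k : K) : K ⧸ N) := fun k => rfl
  have e2 : ∀ k : K, τ' (k : K ⧸ N) = ((τ k : K) : K ⧸ N) := fun k => rfl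
  refine ⟨σ', τ', ⟨?_, ?_, ?_, ?_, ?_⟩, e1, e2⟩
  · intro x
    obtain ⟨k, rfl⟩ := QuotientGroup.mk_surjective x
    rw [e1, e1, h.ss]
  · intro x
    obtain ⟨k, rfl⟩ := QuotientGroup.mk_surjective x
    rw [e2, e2, h.tt]
  · intro x
    obtain ⟨k, rfl⟩ := QuotientGroup.mk_surjective x
    rw [e1, e2, e1, e2, h.st]
  · intro x
    obtain ⟨k, rfl⟩ := QuotientGroup.mk_surjective x
    obtain ⟨n, hn⟩ := h.odd k
    refine ⟨n, ?_⟩
    rw [← QuotientGroup.mk_pow, hn]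
    rfl
  · intro x
    obtain ⟨k, rfl⟩ := QuotientGroup.mk_surjective x
    intro h1 h2
    rw [e1] at h1
    rw [e2] at h2
    rw [QuotientGroup.eq_one_iff]
    exact fix_mem h N k (QuotientGroup.eq.1 h1.symm) (QuotientGroup.eq.1 h2.symm) hτ

end Pool.Agent.FourGp.H78
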