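import Pool.Agent.Lib.MP_fb3619_al.H78.FsolC
import Pool.Agent.Lib.MP_fb3619_al.Part1

/-!
# MP_fb3619_al: FSOL

`fsol`: a finite group of odd elements with a fixed-point-free four-group of automorphisms is
soluble (elementary proof, no use of the theorem of Feit and Thompson).
-/

set_option autoImplicit false

universe u

namespace Pool.Agent.FourGp.H78

open Pool.Agent.FourGp.H45 (act act_a act_b)

/-- The semidirect product with the four-group. -/
theorem semi2 {K : Type u} [Group K] (σ τ : K ≃* K) (hF : FixP K σ τ) :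
    ∃ (G : Type u) (_ : Group G) (f : K →* G) (a b c : G), Function.Injective f ∧
      Cfg ⊤ f.range a b c ∧ (∀ k, a * f k * a = f (σ k)) ∧ (∀ k, b * f k * b = f (τ k)) := by
  let φ := act σ τ hF
  let G := K ⋊[φ] (ℤˣ × ℤˣ)
  let N : Subgroup G := (SemidirectProduct.inl : K →* G).range
  have hN : N = (SemidirectProduct.rightHom : G →* ℤˣ × ℤˣ).ker :=
    SemidirectProduct.range_inl_eq_ker_rightHom
  have hmem : ∀ x : G, x ∈ N ↔ x.right = 1 := by
    intro x
    rw [hN, MonoidHom.mem_ker]
    rfl
  let a : G := SemidirectProduct.inr (-1, 1)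
  let b : G := SemidirectProduct.inr (1, -1)
  let c : G := SemidirectProduct.inr (-1, -1)
  have hsq : ∀ v : ℤˣ × ℤˣ, (SemidirectProduct.inr v : G) * SemidirectProduct.inr v = 1 := by
    intro v
    rw [← map_mul]
    have : v * v = 1 := by revert v; decide
    rw [this, map_one]
  have hac : ∀ (v : ℤˣ × ℤˣ) (k : K), (SemidirectProduct.inr v : G) * SemidirectProduct.inl k =
      SemidirectProduct.inl (φ v k) * SemidirectProduct.inr v := by
    intro v k
    rw [SemidirectProduct.inl_aut, mul_assoc, ← map_mul, inv_mul_cancel, map_one, mul_one]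
  have hcj : ∀ (v : ℤˣ × ℤˣ) (k : K), (SemidirectProduct.inr v : G) * SemidirectProduct.inl k *
      SemidirectProduct.inr v = SemidirectProduct.inl (φ v k) := by
    intro v k
    rw [hac, mul_assoc, hsq, mul_one]
  have hC : Cfg ⊤ N a b c := by
    refine ⟨le_top, Subgroup.mem_top _, Subgroup.mem_top _, Subgroup.mem_top _, ?_, hsq _, hsq _,
      hsq _, ?_, ?_, ?_, ?_, ?_, ?_, ?_⟩
    · intro h _ k hk
      rw [hmem] at hk ⊢
      rw [SemidirectProduct.mul_right, SemidirectProduct.mul_right, hk,
        SemidirectProduct.inv_right]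
      simp
    · show SemidirectProduct.inr _ * SemidirectProduct.inr _ * SemidirectProduct.inr _ = 1
      rw [← map_mul, ← map_mul]
      have : ((-1, 1) : ℤˣ × ℤˣ) * (1, -1) * (-1, -1) = 1 := by decide
      rw [this, map_one]
    · rw [hmem]; show ((-1, 1) : ℤˣ × ℤˣ) ≠ 1; decide
    · rw [hmem]; show ((1, -1) : ℤˣ × ℤˣ) ≠ 1; decide
    · rw [hmem]; show ((-1, -1) : ℤˣ × ℤˣ) ≠ 1; decide
    · intro h _
      rw [hmem, hmem, hmem, hmem, SemidirectProduct.mul_right, SemidirectProduct.mul_right,
        SemidirectProduct.mul_right]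
      show h.right = 1 ∨ h.right * (-1, 1) = 1 ∨ h.right * (1, -1) = 1 ∨ h.right * (-1, -1) = 1
      generalize h.right = v
      revert v
      decide
    · rintro _ ⟨k, rfl⟩
      obtain ⟨n, hn⟩ := hF.odd k
      exact ⟨n, by rw [← map_pow, hn, map_one]⟩
    · rintro _ ⟨k, rfl⟩ h1 h2
      have e1 : σ k = k := by
        have h3 := hac (-1, 1) k
        have h4 : SemidirectProduct.inl (φ (-1, 1) k) * (a : G) = SemidirectProduct.inl k * a :=
          h3.symm.trans h1
        have h5 := SemidirectProduct.inl_injective (mul_right_cancel h4)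
        rwa [show φ (-1, 1) k = σ k from act_a σ τ hF k] at h5
      have e2 : τ k = k := by
        have h3 := hac (1, -1) k
        have h4 : SemidirectProduct.inl (φ (1, -1) k) * (b : G) = SemidirectProduct.inl k * b :=
          h3.symm.trans h2
        have h5 := SemidirectProduct.inl_injective (mul_right_cancel h4)
        rwa [show φ (1, -1) k = τ k from act_b σ τ hF k] at h5
      rw [hF.fix k e1 e2, map_one]
  refine ⟨G, inferInstance, SemidirectProduct.inl, a, b, c, SemidirectProduct.inl_injective, hC,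
    fun k => ?_, fun k => ?_⟩
  · rw [← act_a σ τ hF k]; exact hcj (-1, 1) k
  · rw [← act_b σ τ hF k]; exact hcj (1, -1) k

/-- Restriction of an involutory automorphism. -/
def restr {K : Type u} [Group K] (σ : K ≃* K) (hss : ∀ k, σ (σ k) = k) (M : Subgroup K)
    (hM : ∀ m ∈ M, σ m ∈ M) : M ≃* M where
  toFun m := ⟨σ m, hM m m.2⟩
  invFun m := ⟨σ m, hM m m.2⟩
  left_inv m := Subtype.ext (hss m)
  right_inv m := Subtype.ext (hss m)
  map_mul' m n := Subtype.ext (map_mul σ m.1 n.1)

/-- Restriction to an invariant subgroup. -/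
theorem fixP_restr {K : Type u} [Group K] {σ τ : K ≃* K} (h : FixP K σ τ) (M : Subgroup K)
    (h1 : ∀ m ∈ M, σ m ∈ M) (h2 : ∀ m ∈ M, τ m ∈ M) :
    FixP M (restr σ h.ss M h1) (restr τ h.tt M h2) where
  ss m := Subtype.ext (h.ss m)
  tt m := Subtype.ext (h.tt m)
  st m := Subtype.ext (h.st m)
  odd m := by
    obtain ⟨n, hn⟩ := h.odd m.1
    exact ⟨n, Subtype.ext (by rw [SubmonoidClass.coe_pow, hn]; rfl)⟩
  fix m e1 e2 := Subtype.ext (h.fix m.1 (congrArg Subtype.val e1) (congrArg Subtype.val e2))

/-- A finite group of odd elements with a fixed-point-free four-group of automorphisms is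
soluble. -/
theorem fsol_aux (n : ℕ) : ∀ (K : Type u) [Group K] [Finite K], Nat.card K = n →
    ∀ σ τ : K ≃* K, FixP K σ τ → Group.IsSolvable K := by
  induction n using Nat.strong_induction_on with
  | _ n ih =>
  intro K _ _ hn σ τ hK
  by_contra hns
  -- no proper invariant normal subgroups
  have hmin : ∀ M : Subgroup K, M.Normal → (∀ m ∈ M, σ m ∈ M) → (∀ m ∈ M, τ m ∈ M) →
      M = ⊥ ∨ M = ⊤ := by
    intro M hM h1 h2
    by_contra hcon
    push Not at hcon
    obtain ⟨hb, ht⟩ := hcon
    have c1 : Nat.card M < n := by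
      rw [← hn]
      refine lt_of_le_of_ne (Subgroup.card_le_card_group M) fun e => ht ?_
      exact Subgroup.eq_top_of_card_eq M e
    have c2 : Nat.card (K ⧸ M) < n := by
      have e := Subgroup.card_eq_card_quotient_mul_card_subgroup M
      have hM1 : 1 < Nat.card M := by
        rw [Subgroup.one_lt_card_iff_ne_bot]
        exact hb
      have hp : 0 < Nat.card (K ⧸ M) := Nat.card_pos
      rw [← hn, e]
      nlinarith
    obtain ⟨σ', τ', hq, -, -⟩ := part1_quof K σ τ hK M h1 h2
    have s1 : Group.IsSolvable (K ⧸ M) := ih _ c2 (K ⧸ M) rfl σ' τ' hq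
    have s2 : Group.IsSolvable M := ih _ c1 M rfl _ _ (fixP_restr hK M h1 h2)
    apply hns
    exact Group.isSolvable_of_ker_le_range M.subtype (QuotientGroup.mk' M) (by
      rw [QuotientGroup.ker_mk', Subgroup.range_subtype])
  obtain ⟨G, _, f, a, b, c, hf, hC, ha, hb⟩ := semi2 σ τ hK
  have hne : f.range ≠ ⊥ := by
    intro e
    apply hns
    have h1 : ∀ k : K, k = 1 := by
      intro k
      apply hf
      have : f k ∈ f.range := ⟨k, rfl⟩
      rw [e, Subgroup.mem_bot] at this
      rw [this, map_one]
    exact Group.isSolvable_of_comm fun x y => by rw [h1 x, h1 y]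
  have hfin : Finite f.range := Finite.of_surjective f.rangeRestrict f.rangeRestrict_surjective
  have hS : Group.IsSolvable f.range := by
    refine Fsol.solv hC hne fun M hM hMn => ?_
    have key := hmin (M.comap f) ⟨fun m hm g => ?_⟩ (fun m hm => ?_) (fun m hm => ?_)
    · rcases key with e | e
      · left
        rw [eq_bot_iff]
        intro m hm
        obtain ⟨k, rfl⟩ := hM hm
        have : k ∈ M.comap f := hm
        rw [e, Subgroup.mem_bot] at this
        rw [this, map_one]
        exact Subgroup.mem_bot.2 rfl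
      · right
        refine le_antisymm hM ?_
        rintro _ ⟨k, rfl⟩
        have : k ∈ M.comap f := e ▸ Subgroup.mem_top k
        exact this
    · rw [Subgroup.mem_comap] at hm ⊢
      have := hMn (f g)⁻¹ (Subgroup.mem_top _) _ hm
      rw [inv_inv] at this
      rwa [map_mul, map_mul, map_inv]
    · rw [Subgroup.mem_comap] at hm ⊢
      rw [← ha]
      have := hMn a (Subgroup.mem_top _) _ hm
      rwa [inv_eq_of_mul_eq_one_right hC.haa] at this
    · rw [Subgroup.mem_comap] at hm ⊢
      rw [← hb]
      have := hMn b (Subgroup.mem_top _) _ hm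
      rwa [inv_eq_of_mul_eq_one_right hC.hbb] at this
  apply hns
  exact Group.isSolvable_of_isSolvable_injective (f := f.rangeRestrict)
    (fun x y e => hf (congrArg Subtype.val e))

theorem fsol (K : Type u) [Group K] [Finite K] (σ τ : K ≃* K) (h : FixP K σ τ) :
    Group.IsSolvable K := fsol_aux _ K rfl σ τ h

end Pool.Agent.FourGp.H78
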