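import Pool.Agent.Lib.MP_fb3619_al.Part2
import Pool.Agent.Lib.MP_fb3619_al.Base3
import Pool.Agent.Lib.MP_fb3619_al.H70.Fact
import Pool.Agent.Lib.MP_fb3619_al.RG.Pmf
import Pool.Agent.Lib.MP_fb3619_al.FF.Cnt

/-!
# MP_fb3619_al: FSOL, first part

A finite group of odd elements with a fixed-point-free four-group of automorphisms is soluble.
Here: the decomposition into primary parts of the additive groups `J h`.
-/

set_option autoImplicit false

universe u

namespace Pool.Agent.FourGp.H78.Fsol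

/-! ### Primary parts of finite abelian groups -/

section add

variable {A : Type u} [AddCommGroup A]

/-- `x` is in the `q`-part. -/
def Pq (q : ℕ) (x : A) : Prop := ∃ k : ℕ, (q ^ k) • x = 0

/-- `x` is in the prime to `q` part. -/
def Pr (q : ℕ) (x : A) : Prop := ∃ m : ℕ, Nat.Coprime m q ∧ m • x = 0

theorem coprime_zero {m n : ℕ} (h : Nat.Coprime m n) {x : A} (h1 : m • x = 0) (h2 : n • x = 0) :
    x = 0 := by
  have h3 : addOrderOf x ∣ m := addOrderOf_dvd_of_nsmul_eq_zero h1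
  have h4 : addOrderOf x ∣ n := addOrderOf_dvd_of_nsmul_eq_zero h2
  have h5 : addOrderOf x ∣ 1 := by
    have := Nat.dvd_gcd h3 h4
    rwa [h] at this
  exact AddMonoid.addOrderOf_eq_one_iff.1 (Nat.dvd_one.1 h5)

theorem pq_neg {q : ℕ} {x : A} (h : Pq q x) : Pq q (-x) := by
  obtain ⟨k, hk⟩ := h
  exact ⟨k, by rw [smul_neg, hk, neg_zero]⟩

theorem pr_neg {q : ℕ} {x : A} (h : Pr q x) : Pr q (-x) := by
  obtain ⟨m, h1, hm⟩ := h
  exact ⟨m, h1, by rw [smul_neg, hm, neg_zero]⟩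

theorem split [Finite A] {q : ℕ} (hq : q.Prime) (x : A) :
    ∃ x1 x2 : A, x = x1 + x2 ∧ Pq q x1 ∧ Pr q x2 := by
  have hN : addOrderOf x ≠ 0 := (isOfFinAddOrder_of_finite x).addOrderOf_pos.ne'
  obtain ⟨k, m, hm, e⟩ := Nat.exists_eq_pow_mul_and_not_dvd hN q hq.ne_one
  have hc : Nat.Coprime m q := ((Nat.Prime.coprime_iff_not_dvd hq).2 hm).symm
  have hc' : Nat.Coprime m (q ^ k) := Nat.Coprime.pow_right _ hc
  have hb := Nat.gcd_eq_gcd_ab m (q ^ k)
  rw [hc'] at hb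
  have h0 : addOrderOf x • x = 0 := addOrderOf_nsmul_eq_zero x
  have h1 : ((addOrderOf x : ℕ) : ℤ) • x = 0 := by rw [natCast_zsmul, h0]
  rw [e] at h1
  push_cast at h1 hb
  refine ⟨((m : ℤ) * (Nat.gcdA m (q ^ k))) • x, (((q : ℤ) ^ k) * (Nat.gcdB m (q ^ k))) • x,
    ?_, ⟨k, ?_⟩, ⟨m, hc, ?_⟩⟩
  · rw [← add_smul, ← hb, one_smul]
  · rw [← natCast_zsmul, smul_smul, show ((q ^ k : ℕ) : ℤ) * ((m : ℤ) * Nat.gcdA m (q ^ k)) =
      Nat.gcdA m (q ^ k) * ((q : ℤ) ^ k * (m : ℤ)) by push_cast; ring, mul_smul, h1, smul_zero]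
  · rw [← natCast_zsmul, smul_smul, show (m : ℤ) * ((q : ℤ) ^ k * Nat.gcdB m (q ^ k)) =
      Nat.gcdB m (q ^ k) * ((q : ℤ) ^ k * (m : ℤ)) by ring, mul_smul, h1, smul_zero]

/-- A nonzero element gives a prime and a nonzero element of its primary part. -/
theorem exists_pq [Finite A] {x : A} (hx : x ≠ 0) : ∃ q : ℕ, q.Prime ∧ ∃ y : A, y ≠ 0 ∧ Pq q y := by
  have hN : addOrderOf x ≠ 1 := fun e => hx (AddMonoid.addOrderOf_eq_one_iff.1 e)
  have h0 : 0 < addOrderOf x := (isOfFinAddOrder_of_finite x).addOrderOf_pos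
  obtain ⟨q, hq, d, hd⟩ := Nat.exists_prime_and_dvd hN
  refine ⟨q, hq, d • x, fun e => ?_, 1, ?_⟩
  · have h1 := Nat.le_of_dvd ?_ (addOrderOf_dvd_of_nsmul_eq_zero e)
    · have h2 := hq.two_le
      have h3 : 0 < d := Nat.pos_of_ne_zero fun e => by rw [hd, e] at h0; omega
      nlinarith
    · exact Nat.pos_of_ne_zero fun e => by rw [hd, e] at h0; omega
  · rw [pow_one, smul_smul, ← hd, addOrderOf_nsmul_eq_zero]

/-- If the prime to `q` part is trivial, the order is a power of `q`. -/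
theorem card_pow [Finite A] {q : ℕ} (hq : q.Prime) (h : ∀ x : A, Pr q x → x = 0) :
    ∃ n : ℕ, Nat.card A = q ^ n := by
  have : Fact q.Prime := ⟨hq⟩
  have h1 : IsPGroup q (Multiplicative A) := by
    intro g
    obtain ⟨x1, x2, e, ⟨k, hk⟩, h2⟩ := split hq (Multiplicative.toAdd g)
    rw [h x2 h2, add_zero] at e
    refine ⟨k, ?_⟩
    apply Multiplicative.toAdd.injective
    rw [toAdd_pow, e, hk]
    rfl
  obtain ⟨n, hn⟩ := IsPGroup.iff_card.1 h1
  exact ⟨n, by rw [← hn]; exact Nat.card_congr Multiplicative.ofAdd⟩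

end add

/-- Biadditive maps kill mixed pairs. -/
theorem bi_zero {A B C : Type u} [AddCommGroup A] [AddCommGroup B] [AddCommGroup C]
    (f : A →+ B →+ C) {q : ℕ} {x : A} {y : B} (hx : Pq q x) (hy : Pr q y) : f x y = 0 := by
  obtain ⟨k, hk⟩ := hx
  obtain ⟨m, hm, hm'⟩ := hy
  refine coprime_zero (m := m) (n := q ^ k) (Nat.Coprime.pow_right _ hm) ?_ ?_
  · rw [← map_nsmul, hm', map_zero]
  · have : f ((q ^ k) • x) y = (q ^ k) • f x y := by
      rw [map_nsmul]; rfl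
    rw [← this, hk, map_zero]; rfl

theorem bi_zero' {A B C : Type u} [AddCommGroup A] [AddCommGroup B] [AddCommGroup C]
    (f : A →+ B →+ C) {q : ℕ} {x : A} {y : B} (hx : Pr q x) (hy : Pq q y) : f x y = 0 := by
  obtain ⟨k, hk⟩ := hy
  obtain ⟨m, hm, hm'⟩ := hx
  refine coprime_zero (m := m) (n := q ^ k) (Nat.Coprime.pow_right _ hm) ?_ ?_
  · have : f (m • x) y = m • f x y := by
      rw [map_nsmul]; rfl
    rw [← this, hm', map_zero]; rfl
  · rw [← map_nsmul, hk, map_zero]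

end Pool.Agent.FourGp.H78.Fsol
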