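import Pool.Agent.Lib.MP_fb3619_al.H78.FsolA

/-!
# MP_fb3619_al: FSOL, second part

`Cfg H K a b c`, `K` finite, `K0 H K = K`, trivial centre, no proper invariant subgroups:
`K` is a `q`-group.
-/

set_option autoImplicit false

universe u

namespace Pool.Agent.FourGp.H78.Fsol

open Pool.Agent.FourGp.RG (pm pmj pm_inj pm_swap xa_comm)

variable {G : Type u} [Group G] {H K : Subgroup G} {a b c : G}

/-- An element of `J h` from an element of `C_K(c)`. -/
def mk (h : Cfg H K a b c) (e0 : K0 H K = K) (g : G) (hg : g ∈ K) (hc : g * c = c * g) : J h :=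
  ⟨g, e0.symm ▸ hg, hc⟩

@[simp] theorem mk_val (h : Cfg H K a b c) (e0 : K0 H K = K) (g : G) (hg : g ∈ K)
    (hc : g * c = c * g) : (mk h e0 g hg hc).1 = g := rfl

theorem fin_J (h : Cfg H K a b c) [Finite K] : Finite (J h) :=
  Finite.of_injective (fun γ : J h => (⟨γ.1, γ.memK⟩ : K)) fun x y e =>
    J.ext (Subtype.mk.inj e)

theorem mul_zero_iff (h : Cfg H K a b c) (α : J h.rot) (β : J h.rot.rot) :
    mulH h α β = 0 ↔ α.1 * β.1 = β.1 * α.1 := (part2_mulf G H K a b c h α β).2.2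

theorem val_zero (h : Cfg H K a b c) {γ : J h} (e : γ.1 = 1) : γ = 0 := J.ext e

theorem add_of_zero (h : Cfg H K a b c) {γ : J h} (e : γ = 0) : γ.1 = 1 := by rw [e]; rfl

/-- The `q`-part of type `c`. -/
def Sc (h : Cfg H K a b c) (q : ℕ) (g : G) : Prop := ∃ γ : J h, Pq q γ ∧ g = γ.1

/-- The prime to `q` part of type `c`. -/
def Rc (h : Cfg H K a b c) (q : ℕ) (g : G) : Prop := ∃ γ : J h, Pr q γ ∧ g = γ.1

/-- Centrality from the three types. -/
theorem central (h : Cfg H K a b c) (hZ : ∀ z ∈ K, (∀ k ∈ K, z * k = k * z) → z = 1) {z : G}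
    (hz : z ∈ K) (h1 : ∀ x ∈ K, x * a = a * x → z * x = x * z)
    (h2 : ∀ x ∈ K, x * b = b * x → z * x = x * z)
    (h3 : ∀ x ∈ K, x * c = c * x → z * x = x * z) : z = 1 := by
  refine hZ z hz fun k hk => ?_
  obtain ⟨β, hβ, α, hα, γ, hγ, e1, e2, e3, rfl⟩ := H70.fact G H K a b c h k hk
  have c1 : Commute z β := h2 β hβ e1
  have c2 : Commute z α := h1 α hα e2
  have c3 : Commute z γ := h3 γ hγ e3
  exact (c1.mul_right c2).mul_right c3

/-- An element of `J_a` commuting with the `q`-parts of the other types is in the prime to `q`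
part. -/
theorem claimQ (h : Cfg H K a b c) [Finite K] (e0 : K0 H K = K)
    (hZ : ∀ z ∈ K, (∀ k ∈ K, z * k = k * z) → z = 1) {q : ℕ} (hq : q.Prime) (u : J h.rot)
    (h1 : ∀ β : J h.rot.rot, Pq q β → u.1 * β.1 = β.1 * u.1)
    (h2 : ∀ γ : J h, Pq q γ → u.1 * γ.1 = γ.1 * u.1) : Pr q u := by
  have := fin_J h
  have := fin_J h.rot
  have := fin_J h.rot.rot
  obtain ⟨u1, u2, e, p1, p2⟩ := split hq u
  have m1 : ∀ β : J h.rot.rot, mulH h u1 β = 0 := by
    intro β
    obtain ⟨β1, β2, eβ, q1, q2⟩ := split hq β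
    have k1 : mulH h u1 β2 = 0 := bi_zero _ p1 q2
    have k2 : mulH h u2 β1 = 0 := bi_zero' _ p2 q1
    have k3 : mulH h u β1 = 0 := (mul_zero_iff h u β1).2 (h1 β1 q1)
    have k4 : mulH h u1 β1 = 0 := by
      have : mulH h u β1 = mulH h u1 β1 + mulH h u2 β1 := by rw [e, map_add]; rfl
      rw [k3, k2, add_zero] at this
      exact this.symm
    rw [eβ, map_add, k1, k4, add_zero]
  have m2 : ∀ γ : J h, mulH h.rot.rot γ u1 = 0 := by
    intro γ
    obtain ⟨γ1, γ2, eγ, q1, q2⟩ := split hq γ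
    have k1 : mulH h.rot.rot γ2 u1 = 0 := bi_zero' _ q2 p1
    have k2 : mulH h.rot.rot γ1 u2 = 0 := bi_zero _ q1 p2
    have k3 : mulH h.rot.rot γ1 u = 0 := (mul_zero_iff h.rot.rot γ1 u).2 (h2 γ1 q1).symm
    have k4 : mulH h.rot.rot γ1 u1 = 0 := by
      have : mulH h.rot.rot γ1 u = mulH h.rot.rot γ1 u1 + mulH h.rot.rot γ1 u2 := by
        rw [e, map_add]
      rw [k3, k2, add_zero] at this
      exact this.symm
    have : mulH h.rot.rot γ u1 = mulH h.rot.rot γ1 u1 + mulH h.rot.rot γ2 u1 := by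
      rw [eγ, map_add]; rfl
    rw [this, k1, k4, add_zero]
  have z1 : u1.1 = 1 := by
    refine central h hZ u1.memK (fun x hx e => ?_) (fun x hx e => ?_) (fun x hx e => ?_)
    · exact xa_comm h u1.memK u1.2.2 hx e
    · exact (mul_zero_iff h u1 (mk h.rot.rot e0 x hx e)).1 (m1 _)
    · exact ((mul_zero_iff h.rot.rot (mk h e0 x hx e) u1).1 (m2 _)).symm
  have z2 : u1 = 0 := val_zero h.rot z1
  rw [e, z2, zero_add]
  exact p2

/-- Every element of `X_a` is the product of an element of the `q`-part and an element of the prime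
to `q` part. -/
theorem prodA (h : Cfg H K a b c) [Finite K] (e0 : K0 H K = K)
    (hZ : ∀ z ∈ K, (∀ k ∈ K, z * k = k * z) → z = 1) {q : ℕ} (hq : q.Prime) {x : G} (hx : x ∈ K)
    (hxa : x * a = a * x) : ∃ x1 x2 : G, Sc h.rot q x1 ∧ Rc h.rot q x2 ∧ x = x1 * x2 := by
  have := fin_J h.rot
  obtain ⟨y1, y2, e, p1, p2⟩ := split hq (mk h.rot e0 x hx hxa)
  have hy1 := y1.memK
  have hya : y1.1 * a = a * y1.1 := y1.2.2
  have huK : y1.1⁻¹ * x ∈ K := K.mul_mem (K.inv_mem hy1) hx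
  have hua : (y1.1⁻¹ * x) * a = a * (y1.1⁻¹ * x) :=
    Commute.mul_left (Commute.inv_left (show Commute y1.1 a from hya)) (show Commute x a from hxa)
  refine ⟨y1.1, y1.1⁻¹ * x, ⟨y1, p1, rfl⟩, ⟨mk h.rot e0 _ huK hua, ?_, rfl⟩, by group⟩
  have hxy : y1.1 * x = x * y1.1 := xa_comm h hy1 hya hx hxa
  have hinv : (y1.1⁻¹ * x)⁻¹ = y1.1 * x⁻¹ := by
    have : Commute y1.1 x := hxy
    rw [mul_inv_rev, inv_inv]
    exact (this.inv_right).symm
  refine claimQ h e0 hZ hq _ (fun β hβ => ?_) (fun γ hγ => ?_)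
  · rw [mk_val]
    have k1 : mulH h (mk h.rot e0 x hx hxa) β = mulH h y1 β := by
      have : mulH h (mk h.rot e0 x hx hxa) β = mulH h y1 β + mulH h y2 β := by
        rw [e, map_add]; rfl
      rw [this, bi_zero' _ p2 hβ, add_zero]
    have k2 : pm x β.1 = pm y1.1 β.1 := by
      have s1 := pmj G H K a b c h (mk h.rot e0 x hx hxa) β
      have s2 := pmj G H K a b c h y1 β
      rw [mk_val] at s1
      rw [← s1, ← s2]
      exact congrArg Subtype.val k1
    have k3 : pm β.1 x = pm β.1 y1.1 := by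
      rw [pm_swap h.odd hx β.memK, pm_swap h.odd hy1 β.memK, k2]
    have k4 := pm_inj h.swap β.memK β.2.2 hx hxa hy1 hya k3
    rw [← hinv] at k4
    have k5 : Commute (y1.1⁻¹ * x)⁻¹ β.1 := k4
    have k6 := k5.inv_left
    rwa [inv_inv] at k6
  · rw [mk_val]
    have k1 : mulH h.rot.rot γ (mk h.rot e0 x hx hxa) = mulH h.rot.rot γ y1 := by
      have : mulH h.rot.rot γ (mk h.rot e0 x hx hxa) =
          mulH h.rot.rot γ y1 + mulH h.rot.rot γ y2 := by
        rw [e, map_add]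
      rw [this, bi_zero _ hγ p2, add_zero]
    have k3 : pm γ.1 x = pm γ.1 y1.1 := by
      have s1 := pmj G H K c a b h.rot.rot γ (mk h.rot e0 x hx hxa)
      have s2 := pmj G H K c a b h.rot.rot γ y1
      rw [mk_val] at s1
      rw [← s1, ← s2]
      exact congrArg Subtype.val k1
    have k4 := pm_inj h.rot.rot γ.memK γ.2.2 hx hxa hy1 hya k3
    rw [← hinv] at k4
    have k5 : Commute (y1.1⁻¹ * x)⁻¹ γ.1 := k4
    have k6 := k5.inv_left
    rwa [inv_inv] at k6

end Pool.Agent.FourGp.H78.Fsol
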