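import Pool.Agent.Lib.MP_fb3619_al.H78.FsolB

/-!
# MP_fb3619_al: FSOL, third part: the order of `K` is a power of `q`
-/

set_option autoImplicit false

universe u

namespace Pool.Agent.FourGp.H78.Fsol

open Pool.Agent.FourGp.RG (pm pmj pm_inj pm_swap xa_comm)
open Pool.Agent.FourGp.FF (Fr Cz Fx VInv mem_Cz mem_Fx)

variable {G : Type u} [Group G] {H K : Subgroup G} {a b c : G}

/-- The union of the `q`-parts. -/
def S1 (h : Cfg H K a b c) (q : ℕ) : Set G := {g | Sc h.rot q g ∨ Sc h.rot.rot q g ∨ Sc h q g}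

/-- The union of the prime to `q` parts. -/
def S2 (h : Cfg H K a b c) (q : ℕ) : Set G := {g | Rc h.rot q g ∨ Rc h.rot.rot q g ∨ Rc h q g}

theorem S1_K (h : Cfg H K a b c) {q : ℕ} {g : G} (hg : g ∈ S1 h q) : g ∈ K := by
  rcases hg with ⟨γ, -, rfl⟩ | ⟨γ, -, rfl⟩ | ⟨γ, -, rfl⟩ <;> exact γ.memK

theorem S2_K (h : Cfg H K a b c) {q : ℕ} {g : G} (hg : g ∈ S2 h q) : g ∈ K := by
  rcases hg with ⟨γ, -, rfl⟩ | ⟨γ, -, rfl⟩ | ⟨γ, -, rfl⟩ <;> exact γ.memK

theorem S1_rot (h : Cfg H K a b c) (q : ℕ) : S1 h.rot q = S1 h q := by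
  ext g
  change (Sc h.rot.rot q g ∨ Sc h q g ∨ Sc h.rot q g) ↔
    (Sc h.rot q g ∨ Sc h.rot.rot q g ∨ Sc h q g)
  tauto

theorem S2_rot (h : Cfg H K a b c) (q : ℕ) : S2 h.rot q = S2 h q := by
  ext g
  change (Rc h.rot.rot q g ∨ Rc h q g ∨ Rc h.rot q g) ↔
    (Rc h.rot q g ∨ Rc h.rot.rot q g ∨ Rc h q g)
  tauto

/-- The type `a` part of `S1` commutes with `S2`. -/
theorem comm_a (h : Cfg H K a b c) {q : ℕ} {s t : G} (hs : Sc h.rot q s) (ht : t ∈ S2 h q) :
    s * t = t * s := by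
  obtain ⟨α, hα, rfl⟩ := hs
  rcases ht with ⟨γ, hγ, rfl⟩ | ⟨γ, hγ, rfl⟩ | ⟨γ, hγ, rfl⟩
  · exact xa_comm h α.memK α.2.2 γ.memK γ.2.2
  · exact (mul_zero_iff h α γ).1 (bi_zero _ hα hγ)
  · exact ((mul_zero_iff h.rot.rot γ α).1 (bi_zero' _ hγ hα)).symm

theorem comm12 (h : Cfg H K a b c) {q : ℕ} {s t : G} (hs : s ∈ S1 h q) (ht : t ∈ S2 h q) :
    s * t = t * s := by
  rcases hs with hs | hs | hs
  · exact comm_a h hs ht
  · refine comm_a h.rot hs ?_
    rwa [S2_rot]
  · refine comm_a h.rot.rot hs ?_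
    show t ∈ S2 h.rot.rot q
    rwa [S2_rot h.rot, S2_rot h]

theorem inv_Sc (h : Cfg H K a b c) {q : ℕ} {g : G} (hg : Sc h q g) : Sc h q g⁻¹ := by
  obtain ⟨γ, hγ, rfl⟩ := hg
  exact ⟨-γ, pq_neg hγ, ((part2_neg G H K a b c h).1 γ).symm⟩

/-- Conjugation by `a` preserves `S1`. -/
theorem cja_S1 (h : Cfg H K a b c) {q : ℕ} {g : G} (hg : g ∈ S1 h q) : a * g * a ∈ S1 h q := by
  rcases hg with hg | hg | hg
  · left
    obtain ⟨γ, hγ, rfl⟩ := hg
    have e : a * γ.1 * a = γ.1 := by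
      have : γ.1 * a = a * γ.1 := γ.2.2
      rw [mul_assoc, this, ← mul_assoc, h.haa, one_mul]
    rw [e]
    exact ⟨γ, hγ, rfl⟩
  · right; left
    have h1 := inv_Sc h.rot.rot hg
    obtain ⟨γ, hγ, rfl⟩ := hg
    rwa [h.rot.rot.inv_b γ.memK γ.2.2]
  · right; right
    have h1 := inv_Sc h hg
    obtain ⟨γ, hγ, rfl⟩ := hg
    rwa [h.inv_a γ.memK γ.2.2]

/-- An involution preserving `S` normalises the closure. -/
theorem mem_nor {S : Set G} {v : G} (hv : v * v = 1) (hS : ∀ g ∈ S, v * g * v ∈ S) :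
    v ∈ Subgroup.normalizer (Subgroup.closure S : Set G) := by
  have e : v⁻¹ = v := inv_eq_of_mul_eq_one_right hv
  have h1 : ∀ g ∈ Subgroup.closure S, v * g * v ∈ Subgroup.closure S := by
    intro g hg
    induction hg using Subgroup.closure_induction with
    | mem x hx => exact Subgroup.subset_closure (hS x hx)
    | one => rw [mul_one, hv]; exact Subgroup.one_mem _
    | mul x y _ _ ih1 ih2 =>
      have : v * (x * y) * v = (v * x * v) * (v * y * v) := by
        calc v * (x * y) * v = v * x * 1 * y * v := by group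
          _ = v * x * (v * v) * y * v := by rw [hv]
          _ = _ := by group
      rw [this]
      exact Subgroup.mul_mem _ ih1 ih2
    | inv x _ ih =>
      have : v * x⁻¹ * v = (v * x * v)⁻¹ := by
        rw [mul_inv_rev, mul_inv_rev, e]; group
      rw [this]
      exact Subgroup.inv_mem _ ih
  rw [Subgroup.mem_normalizer_iff]
  intro g
  rw [e]
  constructor
  · exact h1 g
  · intro hg
    have h2 := h1 _ hg
    have : v * (v * g * v) * v = g := by
      calc v * (v * g * v) * v = (v * v) * g * (v * v) := by group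
        _ = g := by rw [hv]; group
    rwa [this] at h2

theorem le_K (h : Cfg H K a b c) (q : ℕ) : Subgroup.closure (S1 h q) ≤ K := by
  rw [Subgroup.closure_le]
  exact fun g hg => S1_K h hg

/-- `K` normalises the closure of `S1`. -/
theorem K_nor (h : Cfg H K a b c) [Finite K] (e0 : K0 H K = K)
    (hZ : ∀ z ∈ K, (∀ k ∈ K, z * k = k * z) → z = 1) {q : ℕ} (hq : q.Prime) :
    K ≤ Subgroup.normalizer (Subgroup.closure (S1 h q) : Set G) := by
  have n1 : ∀ g ∈ S1 h q, g ∈ Subgroup.normalizer (Subgroup.closure (S1 h q) : Set G) := fun g hg =>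
    Subgroup.le_normalizer (Subgroup.subset_closure hg)
  have n2 : ∀ g ∈ S2 h q, g ∈ Subgroup.normalizer (Subgroup.closure (S1 h q) : Set G) := by
    intro g hg
    have h1 : Subgroup.closure (S1 h q) ≤ Subgroup.centralizer {g} := by
      rw [Subgroup.closure_le]
      intro s hs
      rw [SetLike.mem_coe, Subgroup.mem_centralizer_singleton_iff]
      exact comm12 h hs hg
    rw [Subgroup.mem_normalizer_iff]
    have h2 : ∀ x ∈ Subgroup.closure (S1 h q), x * g = g * x := fun x hx =>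
      Subgroup.mem_centralizer_singleton_iff.1 (h1 hx)
    intro x
    constructor
    · intro hx
      rw [← h2 x hx, mul_inv_cancel_right]
      exact hx
    · intro hx
      have h3 := h2 _ hx
      have h4 : g * x * g⁻¹ = x := by
        calc g * x * g⁻¹ = g⁻¹ * (g * (g * x * g⁻¹)) := by group
          _ = g⁻¹ * (g * x * g⁻¹ * g) := by rw [h3]
          _ = x := by group
      rwa [h4] at hx
  intro k hk
  obtain ⟨β, hβ, α, hα, γ, hγ, e1, e2, e3, rfl⟩ := H70.fact G H K a b c h k hk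
  obtain ⟨α1, α2, s1, s2, rfl⟩ := prodA h e0 hZ hq hα e2
  obtain ⟨β1, β2, s3, s4, rfl⟩ := prodA h.rot e0 hZ hq hβ e1
  obtain ⟨γ1, γ2, s5, s6, rfl⟩ := prodA h.rot.rot e0 hZ hq hγ e3
  refine Subgroup.mul_mem _ (Subgroup.mul_mem _ (Subgroup.mul_mem _ ?_ ?_)
    (Subgroup.mul_mem _ ?_ ?_)) (Subgroup.mul_mem _ ?_ ?_)
  · exact n1 _ (Or.inr (Or.inl s3))
  · exact n2 _ (Or.inr (Or.inl s4))
  · exact n1 _ (Or.inl s1)
  · exact n2 _ (Or.inl s2)
  · exact n1 _ (Or.inr (Or.inr s5))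
  · exact n2 _ (Or.inr (Or.inr s6))

theorem H_nor (h : Cfg H K a b c) [Finite K] (e0 : K0 H K = K)
    (hZ : ∀ z ∈ K, (∀ k ∈ K, z * k = k * z) → z = 1) {q : ℕ} (hq : q.Prime) :
    ∀ g ∈ H, ∀ m ∈ Subgroup.closure (S1 h q), g⁻¹ * m * g ∈ Subgroup.closure (S1 h q) := by
  have hK := K_nor h e0 hZ hq
  have ha : a ∈ Subgroup.normalizer (Subgroup.closure (S1 h q) : Set G) := mem_nor h.haa fun g hg => cja_S1 h hg
  have hb : b ∈ Subgroup.normalizer (Subgroup.closure (S1 h q) : Set G) := mem_nor h.hbb fun g hg => by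
    rw [← S1_rot] at hg ⊢
    exact cja_S1 h.rot hg
  have hc : c ∈ Subgroup.normalizer (Subgroup.closure (S1 h q) : Set G) := mem_nor h.hcc fun g hg => by
    rw [← S1_rot h, ← S1_rot h.rot] at hg ⊢
    exact cja_S1 h.rot.rot hg
  have key : ∀ v ∈ Subgroup.normalizer (Subgroup.closure (S1 h q) : Set G), ∀ g, g * v ∈ K →
      g ∈ Subgroup.normalizer (Subgroup.closure (S1 h q) : Set G) := by
    intro v hv g hg
    have := Subgroup.mul_mem _ (hK hg) (Subgroup.inv_mem _ hv)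
    rwa [mul_inv_cancel_right] at this
  intro g hg m hm
  have hgn : g ∈ Subgroup.normalizer (Subgroup.closure (S1 h q) : Set G) := by
    rcases h.top g hg with e | e | e | e
    · exact hK e
    · exact key a ha g e
    · exact key b hb g e
    · exact key c hc g e
  have h1 := (Subgroup.mem_normalizer_iff.1 (Subgroup.inv_mem _ hgn) m).1 hm
  rwa [inv_inv] at h1

/-- If `K` has no proper invariant subgroup, then some `J h` part is everything. -/
theorem exists_q (h : Cfg H K a b c) [Finite K] (e0 : K0 H K = K)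
    (hZ : ∀ z ∈ K, (∀ k ∈ K, z * k = k * z) → z = 1) (hne : K ≠ ⊥)
    (hmin : ∀ M ≤ K, (∀ g ∈ H, ∀ m ∈ M, g⁻¹ * m * g ∈ M) → M = ⊥ ∨ M = K) :
    ∃ q : ℕ, q.Prime ∧ ∀ t ∈ S2 h q, t = 1 := by
  have := fin_J h
  have := fin_J h.rot
  have := fin_J h.rot.rot
  -- a nontrivial element of one of the types
  have h1 : ∃ q : ℕ, q.Prime ∧ ∃ g ∈ S1 h q, g ≠ 1 := by
    by_contra hcon
    push Not at hcon
    have k1 : ∀ x ∈ K, x * a = a * x → x = 1 := by
      intro x hx hxa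
      by_contra hx1
      have : mk h.rot e0 x hx hxa ≠ 0 := fun e => hx1 (by
        have := congrArg Subtype.val e
        exact this)
      obtain ⟨q, hq, y, hy, hy'⟩ := exists_pq this
      exact hy (val_zero h.rot (hcon q hq y.1 (Or.inl ⟨y, hy', rfl⟩)))
    have k2 : ∀ x ∈ K, x * b = b * x → x = 1 := by
      intro x hx hxa
      by_contra hx1
      have : mk h.rot.rot e0 x hx hxa ≠ 0 := fun e => hx1 (by
        have := congrArg Subtype.val e
        exact this)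
      obtain ⟨q, hq, y, hy, hy'⟩ := exists_pq this
      exact hy (val_zero h.rot.rot (hcon q hq y.1 (Or.inr (Or.inl ⟨y, hy', rfl⟩))))
    have k3 : ∀ x ∈ K, x * c = c * x → x = 1 := by
      intro x hx hxa
      by_contra hx1
      have : mk h e0 x hx hxa ≠ 0 := fun e => hx1 (by
        have := congrArg Subtype.val e
        exact this)
      obtain ⟨q, hq, y, hy, hy'⟩ := exists_pq this
      exact hy (val_zero h (hcon q hq y.1 (Or.inr (Or.inr ⟨y, hy', rfl⟩))))
    apply hne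
    rw [eq_bot_iff]
    intro k hk
    obtain ⟨β, hβ, α, hα, γ, hγ, e1, e2, e3, rfl⟩ := H70.fact G H K a b c h k hk
    rw [k1 α hα e2, k2 β hβ e1, k3 γ hγ e3]
    simp
  obtain ⟨q, hq, g, hg, hg1⟩ := h1
  refine ⟨q, hq, fun t ht => ?_⟩
  have h2 : Subgroup.closure (S1 h q) = K := by
    rcases hmin _ (le_K h q) (H_nor h e0 hZ hq) with e | e
    · exfalso
      apply hg1
      have : g ∈ Subgroup.closure (S1 h q) := Subgroup.subset_closure hg
      rw [e] at this
      exact Subgroup.mem_bot.1 this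
    · exact e
  refine hZ t (S2_K h ht) fun k hk => ?_
  have h3 : Subgroup.closure (S1 h q) ≤ Subgroup.centralizer {t} := by
    rw [Subgroup.closure_le]
    intro s hs
    rw [SetLike.mem_coe, Subgroup.mem_centralizer_singleton_iff]
    exact comm12 h hs ht
  rw [h2] at h3
  exact (Subgroup.mem_centralizer_singleton_iff.1 (h3 hk)).symm

/-- The order of `C_K(a)` is a power of `q`. -/
theorem card_Cz (h : Cfg H K a b c) [Finite K] (e0 : K0 H K = K) {q : ℕ} (hq : q.Prime)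
    (h2 : ∀ t ∈ S2 h q, t = 1) : ∃ n : ℕ, Nat.card (Cz K a) = q ^ n := by
  have := fin_J h.rot
  obtain ⟨n, hn⟩ := card_pow (A := J h.rot) hq fun x hx =>
    val_zero h.rot (h2 x.1 (Or.inl ⟨x, hx, rfl⟩))
  refine ⟨n, ?_⟩
  rw [← hn]
  refine Nat.card_congr ⟨fun x => mk h.rot e0 x.1 (mem_Cz.1 x.2).1 (mem_Cz.1 x.2).2,
    fun y => ⟨y.1, mem_Cz.2 ⟨y.memK, y.2.2⟩⟩, fun x => rfl, fun y => rfl⟩

theorem frame (h : Cfg (⊤ : Subgroup G) K a b c) : Fr K a b c where
  nor := ⟨fun k hk g => by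
    have := h.nor g⁻¹ (Subgroup.mem_top _) k hk
    rwa [inv_inv] at this⟩
  odd := h.odd
  aa := h.haa
  bb := h.hbb
  cc := h.hcc
  ab := h.ab
  na := h.ea
  nb := h.eb
  nc := h.ec

theorem solv (h : Cfg (⊤ : Subgroup G) K a b c) [Finite K] (hne : K ≠ ⊥)
    (hmin : ∀ M ≤ K, (∀ g ∈ (⊤ : Subgroup G), ∀ m ∈ M, g⁻¹ * m * g ∈ M) → M = ⊥ ∨ M = K) :
    Group.IsSolvable K := by
  by_contra hns
  -- `K⁰ = K`
  obtain ⟨-, k2, k3⟩ := part1_kcls G ⊤ K a b c h
  have e0 : K0 ⊤ K = K := by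
    rcases hmin _ (K0_le ⊤ K) k3 with e | e
    · exfalso
      apply hns
      have hab : ∀ x y : K, x * y = y * x := by
        intro x y
        have h1 := k2 x.1 x.2 y.1 y.2
        rw [e, Subgroup.mem_bot] at h1
        apply Subtype.ext
        change x.1 * y.1 = y.1 * x.1
        calc x.1 * y.1 = y.1 * x.1 * (x.1⁻¹ * y.1⁻¹ * x.1 * y.1) := by group
          _ = _ := by rw [h1, mul_one]
      exact Group.isSolvable_of_comm hab
    · exact e
  have hZ : ∀ z ∈ K, (∀ k ∈ K, z * k = k * z) → z = 1 := by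
    let Z : Subgroup G := K ⊓ Subgroup.centralizer (K : Set G)
    have hZm : ∀ z, z ∈ Z ↔ z ∈ K ∧ ∀ k ∈ K, k * z = z * k := by
      intro z
      rw [Subgroup.mem_inf, Subgroup.mem_centralizer_iff]
      rfl
    rcases hmin Z inf_le_left (fun g _ m hm => by
      obtain ⟨m1, m2⟩ := (hZm m).1 hm
      refine (hZm _).2 ⟨h.nor g (Subgroup.mem_top _) m m1, fun k hk => ?_⟩
      have h1 : g * k * g⁻¹ ∈ K := by
        have := h.nor g⁻¹ (Subgroup.mem_top _) k hk
        rwa [inv_inv] at this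
      have h2 := m2 _ h1
      calc k * (g⁻¹ * m * g) = g⁻¹ * (g * k * g⁻¹ * m) * g := by group
        _ = g⁻¹ * (m * (g * k * g⁻¹)) * g := by rw [h2]
        _ = _ := by group) with e | e
    · intro z hz hc
      have : z ∈ Z := (hZm z).2 ⟨hz, fun k hk => (hc k hk).symm⟩
      rw [e] at this
      exact Subgroup.mem_bot.1 this
    · exfalso
      apply hns
      refine Group.isSolvable_of_comm fun x y => Subtype.ext ?_
      have hy : y.1 ∈ Z := e.symm ▸ y.2
      exact ((hZm _).1 hy).2 x.1 x.2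
  obtain ⟨q, hq, h2⟩ := exists_q h e0 hZ hne hmin
  obtain ⟨n1, c1⟩ := card_Cz h e0 hq h2
  obtain ⟨n2, c2⟩ := card_Cz h.rot e0 hq (by rwa [S2_rot])
  obtain ⟨n3, c3⟩ := card_Cz h.rot.rot e0 hq (by rwa [S2_rot h.rot, S2_rot h])
  have hF := frame h
  have hV : VInv a b K := ⟨fun k hk => hF.cjmem hF.aa hk, fun k hk => hF.cjmem hF.bb hk⟩
  have d1 := FF.Cnt.card_fac hF le_rfl hV
  have d2 := FF.Cnt.card_dec hF le_rfl hV.1
  have d3 := FF.Cnt.card_dec hF.swap' le_rfl hV.1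
  have f1 : Fx K a b = ⊥ := by
    rw [eq_bot_iff]
    intro f hf
    obtain ⟨f1, f2, f3⟩ := mem_Fx.1 hf
    exact Subgroup.mem_bot.2 (h.cent f f1 f2.symm f3.symm)
  have f2 : Fx K a c = ⊥ := by
    rw [FF.Cnt.Fx_eq hF, f1]
  have g1 : Nat.card (Fx K a b) = 1 := by rw [f1]; exact Subgroup.card_bot
  have g2 : Nat.card (Fx K a c) = 1 := by rw [f2]; exact Subgroup.card_bot
  rw [g1, one_mul] at d2
  rw [g2, one_mul] at d3
  rw [← d2, ← d3, c1, c2, c3, ← pow_add, ← pow_add] at d1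
  have : Fact q.Prime := ⟨hq⟩
  have hp : IsPGroup q K := IsPGroup.of_card d1
  have := hp.isNilpotent
  exact hns inferInstance

end Pool.Agent.FourGp.H78.Fsol
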