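import Mathlib

/-!
# From self-normalizing four-subgroups to normal series (MP_fb3619_al)

`TheoCS` : every periodic group with a self-normalizing four-subgroup is locally finite.
`hyper` : the version for groups with an ascending normal series.
-/

universe u

namespace Pool.Agent.FourGp

/-- Every periodic group with a self-normalizing four-subgroup is locally finite. -/
def TheoCS : Prop := ∀ (G : Type u) [Group G] (R : Subgroup G),
  (∀ g : G, ∃ n : ℕ, 0 < n ∧ g ^ n = 1) → Nat.card R = 4 → (∀ r ∈ R, r * r = 1) →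
  (∀ g : G, (∀ r ∈ R, g⁻¹ * r * g ∈ R) → g ∈ R) → ∀ S : Subgroup G, S.FG → Finite S

theorem fg_map {G H : Type*} [Group G] [Group H] {S : Subgroup G} (h : S.FG) (f : G →* H) :
    (S.map f).FG := by
  have := (Subgroup.fg_iff_submonoid_fg S).1 h
  rw [Subgroup.fg_iff_submonoid_fg]
  exact this.map f

/-- Extensions of locally finite groups by locally finite groups. -/
theorem lf_ext {G : Type u} [Group G] {M N : Subgroup G} (hM : ∀ S ≤ M, S.FG → Finite S)
    (hMN : ∀ S ≤ N, S.FG → M.relIndex S ≠ 0) : ∀ S ≤ N, S.FG → Finite S := by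
  intro S hS hfg
  have h1 := hMN S hS hfg
  have : Group.FG S := (Group.fg_iff_subgroup_fg S).2 hfg
  have : (M.subgroupOf S).FiniteIndex := ⟨h1⟩
  have h2 : (M.subgroupOf S).FG := (Group.fg_iff_subgroup_fg _).1 inferInstance
  have h3 : ((M.subgroupOf S).map S.subtype).FG := fg_map h2 _
  have h4 : (M.subgroupOf S).map S.subtype ≤ M := by
    rintro x ⟨y, hy, rfl⟩
    exact Subgroup.mem_subgroupOf.1 hy
  have h5 : Finite ((M.subgroupOf S).map S.subtype) := hM _ h4 h3
  have h6 : Finite (M.subgroupOf S) := by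
    let e := (M.subgroupOf S).equivMapOfInjective S.subtype S.subtype_injective
    exact Finite.of_equiv _ e.symm.toEquiv
  have h7 : Nat.card S ≠ 0 := by
    rw [← Subgroup.card_mul_index (M.subgroupOf S)]
    exact mul_ne_zero Nat.card_pos.ne' h1
  exact Nat.finite_of_card_ne_zero h7

/-- The union of a chain of locally finite normal subgroups. -/
theorem lf_sup {G : Type u} [Group G] (c : Set (Subgroup G)) (hc : IsChain (· ≤ ·) c)
    (hne : c.Nonempty) (h : ∀ M ∈ c, ∀ S ≤ M, S.FG → Finite S) :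
    ∀ S ≤ sSup c, S.FG → Finite S := by
  classical
  intro S hS hfg
  obtain ⟨s, rfl⟩ := hfg
  have key : ∀ t : Finset G, (∀ x ∈ t, x ∈ sSup c) → ∃ M ∈ c, ∀ x ∈ t, x ∈ M := by
    intro t
    induction t using Finset.induction_on with
    | empty =>
      intro _
      obtain ⟨M, hM⟩ := hne
      exact ⟨M, hM, by simp⟩
    | insert a t ha ih =>
      intro ht
      obtain ⟨M, hM, h1⟩ := ih (fun x hx => ht x (Finset.mem_insert_of_mem hx))
      obtain ⟨N, hN, h2⟩ := (Subgroup.mem_sSup_of_directedOn hne hc.directedOn).1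
        (ht a (Finset.mem_insert_self a t))
      rcases hc.total hM hN with h3 | h3
      · refine ⟨N, hN, fun x hx => ?_⟩
        rcases Finset.mem_insert.1 hx with rfl | hx
        · exact h2
        · exact h3 (h1 x hx)
      · refine ⟨M, hM, fun x hx => ?_⟩
        rcases Finset.mem_insert.1 hx with rfl | hx
        · exact h3 h2
        · exact h1 x hx
  obtain ⟨M, hM, h1⟩ := key s (fun x hx => hS (Subgroup.subset_closure hx))
  exact h M hM _ ((Subgroup.closure_le _).2 h1) ⟨s, rfl⟩

/-- A group is locally finite if it has an ascending normal series with locally finite factors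
(the series is given as a set of normal subgroups closed under unions of chains). -/
theorem lf_hyper {G : Type u} [Group G] (C : Set (Subgroup G)) (h0 : ⊥ ∈ C)
    (hs : ∀ c ⊆ C, c.Nonempty → IsChain (· ≤ ·) c → sSup c ∈ C)
    (h : ∀ M ∈ C, M ≠ ⊤ → ∃ N ∈ C, M < N ∧ ∀ S ≤ N, S.FG → M.relIndex S ≠ 0) :
    ∀ S : Subgroup G, S.FG → Finite S := by
  let P : Set (Subgroup G) := {M | M ∈ C ∧ ∀ S ≤ M, S.FG → Finite S}
  have hP : ∀ c ⊆ P, IsChain (· ≤ ·) c → ∃ ub ∈ P, ∀ z ∈ c, z ≤ ub := by
    intro c hcP hc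
    rcases c.eq_empty_or_nonempty with rfl | hne
    · refine ⟨⊥, ⟨h0, fun S hS _ => ?_⟩, by simp⟩
      rw [le_bot_iff] at hS
      subst hS
      infer_instance
    · exact ⟨sSup c, ⟨hs c (fun M hM => (hcP hM).1) hne hc,
        lf_sup c hc hne (fun M hM => (hcP hM).2)⟩, fun z hz => le_sSup hz⟩
  obtain ⟨M, hM⟩ := zorn_le₀ P hP
  have hMt : M = ⊤ := by
    by_contra hne
    obtain ⟨N, hN, hlt, h1⟩ := h M hM.prop.1 hne
    have h2 : N ∈ P := ⟨hN, lf_ext hM.prop.2 h1⟩
    exact hlt.not_ge (hM.le_of_ge h2 hlt.le)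
  intro S hS
  exact hM.prop.2 S (hMt ▸ le_top) hS

/-- Self-normalizing subgroups of exponent two and order dividing four. -/
theorem theoC' (hC : TheoCS.{u}) (G : Type u) [Group G] (R : Subgroup G)
    (hG : ∀ g : G, ∃ n : ℕ, 0 < n ∧ g ^ n = 1) (hR4 : Nat.card R ∣ 4) (hR : ∀ r ∈ R, r * r = 1)
    (hN : ∀ g : G, (∀ r ∈ R, g⁻¹ * r * g ∈ R) → g ∈ R) : ∀ S : Subgroup G, S.FG → Finite S := by
  have h4 : Nat.card R = 1 ∨ Nat.card R = 2 ∨ Nat.card R = 4 := by
    have : Nat.card R ∈ Nat.divisors 4 := Nat.mem_divisors.2 ⟨hR4, by norm_num⟩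
    have h : Nat.divisors 4 = {1, 2, 4} := by decide
    rw [h] at this
    simpa using this
  rcases h4 with h1 | h2 | h4
  · have hb : R = ⊥ := Subgroup.card_eq_one.1 h1
    subst hb
    have : ∀ g : G, g = 1 := by
      intro g
      have := hN g (by intro r hr; rw [Subgroup.mem_bot] at hr; subst hr; simp)
      simpa using this
    have : Subsingleton G := ⟨fun x y => by rw [this x, this y]⟩
    intro S _
    infer_instance
  · -- the product with a group of order two
    let C := Multiplicative (ZMod 2)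
    have hCC : ∀ c : C, c * c = 1 := by decide
    have hcard : Nat.card C = 2 := by
      rw [Nat.card_congr Multiplicative.toAdd, Nat.card_zmod]
    have key := hC (G × C) (R.prod ⊤) (by
        rintro ⟨g, c⟩
        obtain ⟨n, hn, h⟩ := hG g
        refine ⟨n * 2, by omega, ?_⟩
        rw [Prod.pow_mk, pow_mul, h, one_pow, mul_comm n 2, pow_mul, pow_two, hCC, one_pow]
        rfl) (by
        rw [Nat.card_congr (Subgroup.prodEquiv R ⊤).toEquiv, Nat.card_prod, h2,
          Nat.card_congr (Subgroup.topEquiv (G := C)).toEquiv, hcard]) (by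
        rintro ⟨g, c⟩ hgc
        rw [Subgroup.mem_prod] at hgc
        rw [Prod.mk_mul_mk, hR g hgc.1, hCC]
        rfl) (by
        rintro ⟨g, c⟩ hgc
        rw [Subgroup.mem_prod]
        refine ⟨hN g (fun r hr => ?_), Subgroup.mem_top _⟩
        have := hgc (r, 1) (by rw [Subgroup.mem_prod]; exact ⟨hr, Subgroup.mem_top _⟩)
        rw [Subgroup.mem_prod] at this
        exact this.1)
    intro S hS
    have h3 : (S.map (MonoidHom.inl G C)).FG := fg_map hS _
    have := key _ h3
    let e := S.equivMapOfInjective (MonoidHom.inl G C) (fun x y hxy => by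
      simpa using hxy)
    exact Finite.of_equiv _ e.symm.toEquiv
  · exact hC G R hG h4 hR hN

/-- The version for normal series. -/
theorem hyper (hC : TheoCS.{u}) (G : Type u) [Group G] (R : Subgroup G)
    (hG : ∀ g : G, ∃ n : ℕ, 0 < n ∧ g ^ n = 1) (hR4 : Nat.card R = 4) (hR : ∀ r ∈ R, r * r = 1)
    (C : Set (Subgroup G)) (hn : ∀ M ∈ C, M.Normal) (h0 : ⊥ ∈ C)
    (hs : ∀ c ⊆ C, c.Nonempty → IsChain (· ≤ ·) c → sSup c ∈ C)
    (h : ∀ M ∈ C, M ≠ ⊤ → ∃ N ∈ C, M < N ∧ ((∀ S ≤ N, S.FG → M.relIndex S ≠ 0) ∨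
      ∀ n ∈ N, (∀ r ∈ R, n⁻¹ * r * n ∈ R ⊔ M) → n ∈ R ⊔ M)) :
    ∀ S : Subgroup G, S.FG → Finite S := by
  refine lf_hyper C h0 hs fun M hMC hMt => ?_
  obtain ⟨N, hNC, hlt, h1⟩ := h M hMC hMt
  have hMn := hn M hMC
  have hNn := hn N hNC
  refine ⟨N, hNC, hlt, ?_⟩
  rcases h1 with h1 | h1
  · exact h1
  -- the group `RN/M`
  have := hMn
  have := hNn
  let π := QuotientGroup.mk' M
  let Gb : Subgroup (G ⧸ M) := (R ⊔ N).map π
  let Rb : Subgroup Gb := (R.map π).subgroupOf Gb
  have hle : R.map π ≤ Gb := Subgroup.map_mono le_sup_left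
  have : Finite R := Nat.finite_of_card_ne_zero (by rw [hR4]; norm_num)
  have hcard : Nat.card Rb ∣ 4 := by
    have e := Subgroup.subgroupOfEquivOfLe hle
    rw [Nat.card_congr e.toEquiv, ← hR4]
    exact Subgroup.card_map_dvd R π
  have hlf := theoC' hC Gb Rb (by
      rintro ⟨x, y, hy, rfl⟩
      obtain ⟨n, hn, h⟩ := hG y
      refine ⟨n, hn, Subtype.ext ?_⟩
      show (π y) ^ n = 1
      rw [← map_pow, h, map_one]) hcard (by
      rintro ⟨x, hx⟩ hxr
      obtain ⟨r, hr, h2⟩ := Subgroup.mem_subgroupOf.1 hxr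
      apply Subtype.ext
      show x * x = 1
      have h2 : π r = x := h2
      rw [← h2, ← map_mul, hR r hr, map_one]) (by
      rintro ⟨x, hx⟩ hxn
      rw [Subgroup.mem_subgroupOf]
      show x ∈ R.map π
      obtain ⟨y, hy, rfl⟩ := hx
      obtain ⟨r, hr, n, hn, rfl⟩ := Subgroup.mem_sup_of_normal_right.1 hy
      have h2 : n ∈ R ⊔ M := by
        apply h1 n hn
        intro s hs
        have hs' : π s ∈ R.map π := ⟨s, hs, rfl⟩
        -- conjugate `s` back by `r`
        have hs2 : r * s * r⁻¹ ∈ R := R.mul_mem (R.mul_mem hr hs) (R.inv_mem hr)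
        have h3 := hxn ⟨π (r * s * r⁻¹), hle ⟨_, hs2, rfl⟩⟩
          (Subgroup.mem_subgroupOf.2 ⟨_, hs2, rfl⟩)
        have h4 := Subgroup.mem_subgroupOf.1 h3
        obtain ⟨t, ht, h5⟩ := h4
        have h5 : π t = (π (r * n))⁻¹ * π (r * s * r⁻¹) * π (r * n) := h5
        have h6 : π t = π (n⁻¹ * s * n) := by
          rw [h5, ← map_inv, ← map_mul, ← map_mul]
          congr 1
          group
        have h7 : t⁻¹ * (n⁻¹ * s * n) ∈ M := QuotientGroup.eq.1 h6
        have h8 : n⁻¹ * s * n = t * (t⁻¹ * (n⁻¹ * s * n)) := by group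
        rw [h8]
        exact Subgroup.mul_mem_sup ht h7
      obtain ⟨t, ht, m, hm, rfl⟩ := Subgroup.mem_sup_of_normal_right.1 h2
      refine ⟨r * t, R.mul_mem hr ht, ?_⟩
      show π (r * t) = π (r * (t * m))
      rw [← mul_assoc, map_mul π (r * t) m]
      have : π m = 1 := (QuotientGroup.eq_one_iff m).2 hm
      rw [this, mul_one])
  intro S hS hfg
  -- the image of `S`
  have hSG : S.map π ≤ Gb := Subgroup.map_mono (hS.trans le_sup_right)
  have h2 : ((S.map π).subgroupOf Gb).FG := by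
    have h3 : (S.map π).FG := fg_map hfg _
    have e := Subgroup.subgroupOfEquivOfLe hSG
    have : Group.FG (S.map π) := (Group.fg_iff_subgroup_fg _).2 h3
    have : Group.FG ((S.map π).subgroupOf Gb) :=
      Group.fg_of_surjective (f := e.symm.toMonoidHom) e.symm.surjective
    exact (Group.fg_iff_subgroup_fg _).1 this
  have := hlf _ h2
  have h3 : Finite (S.map π) := Finite.of_equiv _ (Subgroup.subgroupOfEquivOfLe hSG).toEquiv
  -- `S/(S ∩ M)` is isomorphic to the image
  let f : S →* S.map π := π.subgroupMap S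
  have h4 : f.ker = M.subgroupOf S := by
    ext x
    rw [MonoidHom.mem_ker, Subgroup.mem_subgroupOf]
    constructor
    · intro h
      have : π x = 1 := congrArg Subtype.val h
      exact (QuotientGroup.eq_one_iff (x : G)).1 this
    · intro h
      apply Subtype.ext
      exact (QuotientGroup.eq_one_iff (x : G)).2 h
  show (M.subgroupOf S).index ≠ 0
  rw [← h4, Subgroup.index_ker]
  exact Nat.card_pos.ne'

end Pool.Agent.FourGp
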