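import Pool.Agent.Lib.MP_fb3619_al.Base2

/-! NEG: `-γ = γ⁻¹` in `J h`, and `J h` has no 2-torsion. -/

universe u

namespace Pool.Agent.FourGp.H78

open J

variable {G : Type u} [Group G] {H K : Subgroup G} {a b c : G}

theorem jinv_jinv (h : Cfg H K a b c) (x : J h) : jinv h (jinv h x) = x :=
  J.ext (inv_inv x.1)

theorem jinv_add (h : Cfg H K a b c) (x y : J h) : jinv h (x + y) = jinv h x + jinv h y := by
  obtain ⟨φ, hφ, e1, -⟩ := exists_trl h x
  let k : H := ⟨b, h.hb⟩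
  have hc := part1_cjc G H K a b c h k
  have h1 := (part1_eqv _ _ h.geo).1 (cj H k, cj H k) hc h.pa h.pb φ hφ
  have ea : cj H k h.pa = h.pa := by
    apply Subtype.ext
    change b⁻¹ * a * b = a
    rw [mul_assoc, h.ab, ← h.ba, ← mul_assoc, inv_mul_cancel, one_mul]
  have eb : cj H k h.pb = h.pb := by
    apply Subtype.ext
    change b⁻¹ * b * b = b
    rw [inv_mul_cancel, one_mul]
  have hs : ∀ γ : J h, cj H k (bp h γ) = bp h (jinv h γ) := by
    intro γ
    apply Subtype.ext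
    change b⁻¹ * (b * γ.1) * b = b * γ.1⁻¹
    rw [← mul_assoc, inv_mul_cancel, one_mul, h.mul_b γ.memK γ.2.2]
  have hs' : ∀ γ : J h, (cj H k)⁻¹ (bp h (jinv h γ)) = bp h γ := by
    intro γ
    rw [← hs]
    exact (cj H k).symm_apply_apply _
  have eb' : (cj H k)⁻¹ h.pb = h.pb := by
    conv_lhs => rw [← eb]
    exact (cj H k).symm_apply_apply _
  have h2 : ((cj H k, cj H k) * φ * (cj H k, cj H k)⁻¹) ∈ (inc H K).Nn h.pa h.pb := by
    have h3 := h1
    simp only [ea, eb] at h3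
    exact h3
  have h3 : ((cj H k, cj H k) * φ * (cj H k, cj H k)⁻¹).1 h.pb = bp h (jinv h x) := by
    change cj H k (φ.1 ((cj H k)⁻¹ h.pb)) = _
    rw [eb', e1, hs]
  have h4 := trl_b h h2 h3 (jinv h y)
  have h5 : ((cj H k, cj H k) * φ * (cj H k, cj H k)⁻¹).1 (bp h (jinv h y)) =
      bp h (jinv h (x + y)) := by
    change cj H k (φ.1 ((cj H k)⁻¹ (bp h (jinv h y)))) = _
    rw [hs', trl_b h hφ e1, hs]
  rw [h5] at h4
  exact bp_inj h h4

theorem jinv_fix (h : Cfg H K a b c) (x : J h) (e : jinv h x = x) : x = 0 := by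
  apply J.ext
  have h1 : x.1⁻¹ = x.1 := congrArg Subtype.val e
  have h2 : x.1 * x.1 = 1 := by
    have h0 := inv_mul_cancel x.1
    rwa [h1] at h0
  obtain ⟨n, hn⟩ := h.odd x.1 x.memK
  have h3 : x.1 ^ (2 * n + 1) = x.1 := by
    rw [pow_succ, pow_mul, pow_two, h2, one_pow, one_mul]
  rw [← h3, hn]
  rfl

theorem neg : NegS.{u} := by
  intro G _ H K a b c h
  have key : ∀ γ : J h, -γ = jinv h γ := by
    intro γ
    have h1 : jinv h (γ + jinv h γ) = γ + jinv h γ := by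
      rw [jinv_add, jinv_jinv, add_comm]
    exact neg_eq_of_add_eq_zero_right (jinv_fix h _ h1)
  refine ⟨fun γ => by rw [key]; rfl, fun γ hγ => ?_⟩
  apply jinv_fix h
  rw [← key]
  exact (eq_neg_of_add_eq_zero_left hγ).symm

end Pool.Agent.FourGp.H78
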